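import Pool.Agent.helper17.CH.SpecW

/-!
# Project CH (MP_5628fe_nt), part W, row HPB: bilinear sums through the mean square over the frequencies
-/

set_option autoImplicit false

namespace Pool.Agent.CH

open Finset ArithmeticFunction MeasureTheory Filter Topology

private theorem HPB_norm_nit (t x : ℝ) : ‖nit t x‖ = 1 := by
  unfold nit
  exact Complex.norm_exp_ofReal_mul_I _

private theorem HPB_nit_mul (t : ℝ) {x y : ℝ} (hx : 0 < x) (hy : 0 < y) :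
    nit t (x * y) = nit t x * nit t y := by
  unfold nit
  rw [← Complex.exp_add, Real.log_mul hx.ne' hy.ne']
  congr 1
  push_cast
  ring

private theorem HPB_cont (M : ℕ) (a : ℕ → ℂ) : Continuous (fun t => DPb M a t) := by
  unfold DPb nit
  fun_prop

private theorem HPB_norm_DPb (M : ℕ) (a : ℕ → ℂ) (t : ℝ) :
    ‖DPb M a t‖ ≤ ∑ m ∈ Ico M (2 * M), ‖a m‖ := by
  unfold DPb
  refine (norm_sum_le _ _).trans (Finset.sum_le_sum fun m _ => ?_)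
  rw [norm_mul, HPB_norm_nit, mul_one]

private theorem HPB_prod (M K : ℕ) (hM : 1 ≤ M) (hK : 1 ≤ K) (a b : ℕ → ℂ) (t : ℝ) :
    ∑ w ∈ Ico M (2 * M) ×ˢ Ico K (2 * K), a w.1 * b w.2 * nit t ((w.1 * w.2 : ℕ) : ℝ) =
      DPb M a t * DPb K b t := by
  unfold DPb
  rw [Finset.sum_product, Finset.sum_mul_sum]
  refine Finset.sum_congr rfl fun m hm => Finset.sum_congr rfl fun k hk => ?_
  have h1 : (0 : ℝ) < m := by
    have := (Finset.mem_Ico.1 hm).1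
    exact_mod_cast (by omega : 0 < m)
  have h2 : (0 : ℝ) < k := by
    have := (Finset.mem_Ico.1 hk).1
    exact_mod_cast (by omega : 0 < k)
  simp only
  rw [Nat.cast_mul, HPB_nit_mul t h1 h2]
  ring

private theorem HPB_mu_nonneg {δ δ' : ℝ} (h0 : 0 < δ) (h : δ ≤ δ') (t : ℝ) : 0 ≤ mu2 δ δ' t := by
  unfold mu2
  have : δ ^ 2 ≤ δ' ^ 2 := pow_le_pow_left₀ h0.le h 2
  have h2 : δ ^ 2 * t ^ 2 ≤ δ' ^ 2 * t ^ 2 := mul_le_mul_of_nonneg_right this (sq_nonneg t)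
  have h3 : Real.exp (-(δ' ^ 2 * t ^ 2) / 2) ≤ Real.exp (-(δ ^ 2 * t ^ 2) / 2) :=
    Real.exp_le_exp.2 (by linarith)
  linarith

private theorem HPB_mu_small {δ δ' : ℝ} (t : ℝ) : mu2 δ δ' t ≤ δ' ^ 2 * t ^ 2 / 2 := by
  unfold mu2
  have h1 : Real.exp (-(δ ^ 2 * t ^ 2) / 2) ≤ 1 := Real.exp_le_one_iff.2 (by
    have : 0 ≤ δ ^ 2 * t ^ 2 := by positivity
    linarith)
  have h2 := Real.add_one_le_exp (-(δ' ^ 2 * t ^ 2) / 2)
  linarith

private theorem HPB_mu_one {δ δ' : ℝ} (t : ℝ) : mu2 δ δ' t ≤ 1 := by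
  unfold mu2
  have h1 : Real.exp (-(δ ^ 2 * t ^ 2) / 2) ≤ 1 := Real.exp_le_one_iff.2 (by
    have : 0 ≤ δ ^ 2 * t ^ 2 := by positivity
    linarith)
  have h2 := Real.exp_pos (-(δ' ^ 2 * t ^ 2) / 2)
  linarith

private theorem HPB_mu_exp {δ δ' : ℝ} (t : ℝ) : mu2 δ δ' t ≤ Real.exp (-(δ ^ 2 * t ^ 2) / 2) := by
  unfold mu2
  have h2 := Real.exp_pos (-(δ' ^ 2 * t ^ 2) / 2)
  linarith

private theorem HPB_tail (ε : ℝ) (hε : 0 < ε) (K : ℕ) :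
    ∀ᶠ N : ℕ in atTop, (N : ℝ) ^ K * Real.exp (-((N : ℝ) ^ (2 * ε) / 2)) ≤ 1 / 12 := by
  have h1 := tendsto_rpow_mul_exp_neg_mul_atTop_nhds_zero ((K : ℝ) / (2 * ε)) (1 / 2) (by norm_num)
  have h2 : Tendsto (fun N : ℕ => (N : ℝ) ^ (2 * ε)) atTop atTop :=
    (tendsto_rpow_atTop (by positivity)).comp tendsto_natCast_atTop_atTop
  have h3 := h1.comp h2
  have h4 := h3.eventually (Iic_mem_nhds (by norm_num : (0 : ℝ) < 1 / 12))
  filter_upwards [h4] with N hN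
  have e1 : ((N : ℝ) ^ (2 * ε)) ^ ((K : ℝ) / (2 * ε)) = (N : ℝ) ^ K := by
    rw [← Real.rpow_mul (by positivity), mul_div_cancel₀ _ (by positivity), Real.rpow_natCast]
  have e2 : -(1 / 2) * (N : ℝ) ^ (2 * ε) = -((N : ℝ) ^ (2 * ε) / 2) := by ring
  simp only [Function.comp] at hN
  rw [e1, e2] at hN
  exact hN

/-- the analytic core: for all parameters with the numerical conditions -/
private theorem HPB_core (F : ℝ → ℂ) (hF : Continuous F) (Z δ δ' R T D : ℝ) (hZ : ∀ t, ‖F t‖ ≤ Z)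
    (hδ : 0 < δ) (hδδ : δ ≤ δ') (hR : 0 ≤ R) (hT : ∀ t : ℝ, T < |t| → D ≤ δ ^ 2 * t ^ 2) :
    ∫ t : ℝ, ‖F t‖ ^ 2 * mu2 δ δ' t ^ 2 ≤
      2 * R * (Z ^ 2 * (δ' ^ 2 * R ^ 2 / 2) ^ 2) +
      (∫ t in {t : ℝ | R ≤ |t| ∧ |t| ≤ T}, ‖F t‖ ^ 2) +
      Z ^ 2 * Real.exp (-(D / 2)) * √(Real.pi / (δ ^ 2 / 2)) := by
  have hZ0 : 0 ≤ Z := le_trans (norm_nonneg _) (hZ 0)
  set S : Set ℝ := {t : ℝ | R ≤ |t| ∧ |t| ≤ T} with hS
  have hSm : MeasurableSet S := by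
    have hSe : S = {t : ℝ | R ≤ |t|} ∩ {t : ℝ | |t| ≤ T} := rfl
    have : IsClosed S := by
      rw [hSe]
      exact (isClosed_le continuous_const continuous_abs).inter
        (isClosed_le continuous_abs continuous_const)
    exact this.measurableSet
  have hSc : S ⊆ Set.Icc (-T) T := by
    intro t ht
    exact Set.mem_Icc.2 (abs_le.1 ht.2)
  have hFi : IntegrableOn (fun t => ‖F t‖ ^ 2) S := by
    have : IntegrableOn (fun t => ‖F t‖ ^ 2) (Set.Icc (-T) T) :=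
      ((hF.norm.pow 2).continuousOn).integrableOn_compact isCompact_Icc
    exact this.mono_set hSc
  obtain ⟨g1, hg1⟩ : ∃ g1 : ℝ → ℝ, g1 = (Set.Icc (-R) R).indicator
    (fun _ => Z ^ 2 * (δ' ^ 2 * R ^ 2 / 2) ^ 2) := ⟨_, rfl⟩
  obtain ⟨g2, hg2⟩ : ∃ g2 : ℝ → ℝ, g2 = S.indicator (fun t => ‖F t‖ ^ 2) := ⟨_, rfl⟩
  obtain ⟨g3, hg3⟩ : ∃ g3 : ℝ → ℝ, g3 = fun t =>
    Z ^ 2 * Real.exp (-(D / 2)) * Real.exp (-(δ ^ 2 / 2) * t ^ 2) := ⟨_, rfl⟩
  have i1 : Integrable g1 := by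
    rw [hg1, integrable_indicator_iff measurableSet_Icc]
    exact continuous_const.integrableOn_Icc
  have i2 : Integrable g2 := by
    rw [hg2, integrable_indicator_iff hSm]
    exact hFi
  have i3 : Integrable g3 := by
    rw [hg3]
    exact (integrable_exp_neg_mul_sq (by positivity)).const_mul _
  have v1 : ∫ t, g1 t = 2 * R * (Z ^ 2 * (δ' ^ 2 * R ^ 2 / 2) ^ 2) := by
    rw [hg1, integral_indicator measurableSet_Icc, setIntegral_const, Real.volume_real_Icc_of_le (by linarith)]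
    rw [smul_eq_mul]
    ring
  have v2 : ∫ t, g2 t = ∫ t in S, ‖F t‖ ^ 2 := by
    rw [hg2, integral_indicator hSm]
  have v3 : ∫ t, g3 t = Z ^ 2 * Real.exp (-(D / 2)) * √(Real.pi / (δ ^ 2 / 2)) := by
    rw [hg3, integral_const_mul, integral_gaussian]
  have p1 : ∀ t, 0 ≤ g1 t := by
    intro t
    rw [hg1]
    exact Set.indicator_nonneg (fun _ _ => by positivity) t
  have p2 : ∀ t, 0 ≤ g2 t := by
    intro t
    rw [hg2]
    exact Set.indicator_nonneg (fun _ _ => by positivity) t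
  have p3 : ∀ t, 0 ≤ g3 t := by
    intro t
    rw [hg3]
    positivity
  have key : ∀ t, ‖F t‖ ^ 2 * mu2 δ δ' t ^ 2 ≤ g1 t + g2 t + g3 t := by
    intro t
    have hm0 := HPB_mu_nonneg hδ hδδ t
    have hFZ : ‖F t‖ ^ 2 ≤ Z ^ 2 := pow_le_pow_left₀ (norm_nonneg _) (hZ t) 2
    by_cases c1 : |t| ≤ R
    · have e : g1 t = Z ^ 2 * (δ' ^ 2 * R ^ 2 / 2) ^ 2 := by
        rw [hg1, Set.indicator_of_mem (Set.mem_Icc.2 (abs_le.1 c1))]
      have e2 : mu2 δ δ' t ≤ δ' ^ 2 * R ^ 2 / 2 := by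
        refine (HPB_mu_small t).trans ?_
        have : t ^ 2 ≤ R ^ 2 := by
          rw [← sq_abs t]
          exact pow_le_pow_left₀ (abs_nonneg t) c1 2
        have h5 : 0 ≤ δ' ^ 2 := sq_nonneg _
        linarith [mul_le_mul_of_nonneg_left this h5]
      have e3 : mu2 δ δ' t ^ 2 ≤ (δ' ^ 2 * R ^ 2 / 2) ^ 2 := pow_le_pow_left₀ hm0 e2 2
      have e4 : ‖F t‖ ^ 2 * mu2 δ δ' t ^ 2 ≤ Z ^ 2 * (δ' ^ 2 * R ^ 2 / 2) ^ 2 :=
        mul_le_mul hFZ e3 (sq_nonneg _) (sq_nonneg _)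
      have := p2 t
      have := p3 t
      linarith
    · push Not at c1
      by_cases c2 : |t| ≤ T
      · have e : g2 t = ‖F t‖ ^ 2 := by
          rw [hg2, Set.indicator_of_mem (show t ∈ S from ⟨c1.le, c2⟩)]
        have e3 : mu2 δ δ' t ^ 2 ≤ 1 := pow_le_one₀ hm0 (HPB_mu_one t)
        have e4 : ‖F t‖ ^ 2 * mu2 δ δ' t ^ 2 ≤ ‖F t‖ ^ 2 * 1 :=
          mul_le_mul_of_nonneg_left e3 (sq_nonneg _)
        have := p1 t
        have := p3 t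
        linarith
      · push Not at c2
        have e : g3 t = Z ^ 2 * Real.exp (-(D / 2)) * Real.exp (-(δ ^ 2 / 2) * t ^ 2) := by
          rw [hg3]
        have e3 : mu2 δ δ' t ^ 2 ≤ Real.exp (-(D / 2)) * Real.exp (-(δ ^ 2 / 2) * t ^ 2) := by
          calc mu2 δ δ' t ^ 2 ≤ Real.exp (-(δ ^ 2 * t ^ 2) / 2) ^ 2 :=
                pow_le_pow_left₀ hm0 (HPB_mu_exp t) 2
            _ = Real.exp (-(δ ^ 2 * t ^ 2)) := by
                rw [← Real.exp_nat_mul]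
                congr 1
                push_cast
                ring
            _ ≤ Real.exp (-(D / 2) + (-(δ ^ 2 / 2) * t ^ 2)) := by
                apply Real.exp_le_exp.2
                have := hT t c2
                linarith
            _ = Real.exp (-(D / 2)) * Real.exp (-(δ ^ 2 / 2) * t ^ 2) := Real.exp_add _ _
        have e4 : ‖F t‖ ^ 2 * mu2 δ δ' t ^ 2 ≤
            Z ^ 2 * (Real.exp (-(D / 2)) * Real.exp (-(δ ^ 2 / 2) * t ^ 2)) :=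
          mul_le_mul hFZ e3 (sq_nonneg _) (sq_nonneg _)
        have := p1 t
        have := p2 t
        linarith
  calc ∫ t : ℝ, ‖F t‖ ^ 2 * mu2 δ δ' t ^ 2 ≤ ∫ t : ℝ, (g1 t + g2 t + g3 t) := by
        apply integral_mono_of_nonneg
        · exact Eventually.of_forall fun t => by positivity
        · exact (i1.add i2).add i3
        · exact Eventually.of_forall key
    _ = (∫ t : ℝ, (g1 t + g2 t)) + ∫ t : ℝ, g3 t := integral_add (i1.add i2) i3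
    _ = ((∫ t : ℝ, g1 t) + ∫ t : ℝ, g2 t) + ∫ t : ℝ, g3 t := by rw [integral_add i1 i2]
    _ = _ := by rw [v1, v2, v3]

/-- HPB (hypothesis: HP) -/
theorem HPB (h1 : HP_stmt) : HPB_stmt := by
  intro ε A A' B₁ hε
  refine ⟨5 * B₁ + 2 * A' + 2 * A + 1, ?_⟩
  intro B₂ hB₂
  -- large `N`
  have ev1 : ∀ᶠ N : ℕ in atTop, Real.log N ^ B₂ ≤ (N : ℝ) ^ (1 + ε) := by
    have h := (isLittleO_log_rpow_rpow_atTop (B₂ : ℝ) (show (0 : ℝ) < 1 + ε by positivity)).bound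
      (show (0 : ℝ) < 1 by norm_num)
    have h' := tendsto_natCast_atTop_atTop (R := ℝ) |>.eventually h
    filter_upwards [h', eventually_ge_atTop 1] with N hN hN1
    have hN1' : (1 : ℝ) ≤ N := by exact_mod_cast hN1
    have hl : 0 ≤ Real.log N := Real.log_nonneg hN1'
    rw [Real.rpow_natCast, one_mul, Real.norm_of_nonneg (by positivity),
      Real.norm_of_nonneg (by positivity)] at hN
    exact hN
  have ev2 : ∀ᶠ N : ℕ in atTop, 2 ≤ Real.log N :=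
    (Real.tendsto_log_atTop.comp tendsto_natCast_atTop_atTop).eventually_ge_atTop 2
  obtain ⟨E, hE⟩ := exists_nat_ge (1 + ε)
  obtain ⟨N₀, hN₀⟩ := eventually_atTop.1 ((ev1.and ev2).and (HPB_tail ε hε (E + 2 * A' + 2 * A)))
  refine ⟨max N₀ 1, ?_⟩
  intro N hN c hc M K a b hM hK hsum hint
  obtain ⟨⟨hl1, hl2⟩, hl3⟩ := hN₀ N ((le_max_left _ _).trans hN)
  have hN1 : 1 ≤ N := (le_max_right _ _).trans hN
  have hNR : (1 : ℝ) ≤ N := by exact_mod_cast hN1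
  have hN0 : (0 : ℝ) < N := by linarith
  obtain ⟨l, hl⟩ : ∃ l : ℝ, l = Real.log N := ⟨_, rfl⟩
  rw [← hl] at hl1 hl2 hsum hint
  have hl0 : 0 < l := by linarith
  have hlN : l ≤ N := by
    rw [hl]
    exact (Real.log_le_sub_one_of_pos hN0).trans (by linarith)
  obtain ⟨δ, hδ⟩ : ∃ δ : ℝ, δ = de ε N := ⟨_, rfl⟩
  obtain ⟨δ', hδ'⟩ : ∃ δ' : ℝ, δ' = dB B₂ N := ⟨_, rfl⟩
  have hδe : δ = (N : ℝ) ^ (-(1 + ε)) := hδ
  have hδ'e : δ' = 1 / l ^ B₂ := by rw [hδ', hl]; rfl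
  have hδ0 : 0 < δ := by rw [hδe]; positivity
  have hδ'0 : 0 < δ' := by rw [hδ'e]; positivity
  have hδδ : δ ≤ δ' := by
    rw [hδe, hδ'e, Real.rpow_neg hN0.le, ← one_div]
    exact one_div_le_one_div_of_le (by positivity) hl1
  -- HP
  have hHP := h1 N c δ δ' (Ico M (2 * M) ×ˢ Ico K (2 * K)) (fun w => a w.1 * b w.2) hN1 hc hδ0 hδ'0
    (by
      intro w hw
      rw [Finset.mem_product, Finset.mem_Ico, Finset.mem_Ico] at hw
      exact Nat.mul_pos (by omega) (by omega))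
  have hBL : BLb M K a b (gW N c δ δ') =
      ∑ w ∈ Ico M (2 * M) ×ˢ Ico K (2 * K), a w.1 * b w.2 * gW N c δ δ' (w.1 * w.2) := by
    unfold BLb
    rw [Finset.sum_product]
  rw [← hδ, ← hδ', ← hl, hBL]
  refine hHP.trans ?_
  have hF : ∀ t : ℝ, ∑ w ∈ Ico M (2 * M) ×ˢ Ico K (2 * K),
      (fun w : ℕ × ℕ => a w.1 * b w.2) w * nit t ((w.1 * w.2 : ℕ) : ℝ) = DPb M a t * DPb K b t :=
    fun t => HPB_prod M K hM hK a b t
  simp_rw [hF]
  have hZ : ∀ t, ‖DPb M a t * DPb K b t‖ ≤ (N : ℝ) ^ 3 * l ^ A' := by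
    intro t
    rw [norm_mul]
    exact (mul_le_mul (HPB_norm_DPb M a t) (HPB_norm_DPb K b t) (norm_nonneg _)
      (Finset.sum_nonneg fun _ _ => norm_nonneg _)).trans hsum
  have hT : ∀ t : ℝ, (N : ℝ) ^ (1 + 2 * ε) < |t| → (N : ℝ) ^ (2 * ε) ≤ δ ^ 2 * t ^ 2 := by
    intro t ht
    have e1 : (N : ℝ) ^ ε ≤ δ * |t| := by
      calc (N : ℝ) ^ ε = δ * (N : ℝ) ^ (1 + 2 * ε) := by
            rw [hδe, ← Real.rpow_add hN0]
            congr 1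
            ring
        _ ≤ δ * |t| := mul_le_mul_of_nonneg_left ht.le hδ0.le
    have e2 : ((N : ℝ) ^ ε) ^ 2 ≤ (δ * |t|) ^ 2 := pow_le_pow_left₀ (by positivity) e1 2
    rw [mul_pow, sq_abs] at e2
    have e3 : (N : ℝ) ^ (2 * ε) = ((N : ℝ) ^ ε) ^ 2 := by
      rw [← Real.rpow_natCast, ← Real.rpow_mul hN0.le]
      congr 1
      push_cast
      ring
    rw [e3]
    exact e2
  have hcore := HPB_core (fun t => DPb M a t * DPb K b t) ((HPB_cont M a).mul (HPB_cont K b))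
    ((N : ℝ) ^ 3 * l ^ A') δ δ' (l ^ B₁) ((N : ℝ) ^ (1 + 2 * ε)) ((N : ℝ) ^ (2 * ε)) hZ hδ0 hδδ
    (by positivity) hT
  have hmid : ∫ t in {t : ℝ | l ^ B₁ ≤ |t| ∧ |t| ≤ (N : ℝ) ^ (1 + 2 * ε)},
      ‖DPb M a t * DPb K b t‖ ^ 2 ≤ (N : ℝ) ^ 6 / l ^ (2 * A + 2) := by
    have e : {t : ℝ | l ^ B₁ ≤ |t| ∧ |t| ≤ (N : ℝ) ^ (1 + 2 * ε)} = Tset ε B₁ N := by
      rw [hl]
      rfl
    rw [e]
    have e2 : (fun t => ‖DPb M a t * DPb K b t‖ ^ 2) =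
        fun t => ‖DPb M a t‖ ^ 2 * ‖DPb K b t‖ ^ 2 := by
      funext t
      rw [norm_mul, mul_pow]
    rw [e2]
    exact hint
  -- the three numerical bounds
  have b1 : 2 * l ^ B₁ * (((N : ℝ) ^ 3 * l ^ A') ^ 2 * (δ' ^ 2 * (l ^ B₁) ^ 2 / 2) ^ 2) ≤
      (N : ℝ) ^ 6 / (4 * l ^ (2 * A)) := by
    have e1 : 2 * l ^ B₁ * (((N : ℝ) ^ 3 * l ^ A') ^ 2 * (δ' ^ 2 * (l ^ B₁) ^ 2 / 2) ^ 2) =
        (N : ℝ) ^ 6 * l ^ (5 * B₁ + 2 * A') / (2 * l ^ (4 * B₂)) := by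
      rw [hδ'e]
      have f1 : (l ^ B₂) ≠ 0 := by positivity
      rw [show l ^ (5 * B₁ + 2 * A') = (l ^ B₁) ^ 5 * (l ^ A') ^ 2 by
        rw [← pow_mul, ← pow_mul, ← pow_add]; congr 1; ring]
      rw [show l ^ (4 * B₂) = (l ^ B₂) ^ 4 by rw [← pow_mul]; congr 1; ring]
      field_simp
    rw [e1, div_le_div_iff₀ (by positivity) (by positivity)]
    have e2 : l ^ (5 * B₁ + 2 * A') * (4 * l ^ (2 * A)) ≤ 2 * l ^ (4 * B₂) := by
      have g1 : l ^ (5 * B₁ + 2 * A' + 2 * A + 1) ≤ l ^ (4 * B₂) :=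
        pow_le_pow_right₀ (by linarith) (by omega)
      have g2 : l ^ (5 * B₁ + 2 * A') * l ^ (2 * A) * l = l ^ (5 * B₁ + 2 * A' + 2 * A + 1) := by
        rw [← pow_add, ← pow_succ]
      have g3 : 0 < l ^ (5 * B₁ + 2 * A') * l ^ (2 * A) := by positivity
      have g4 : l ^ (5 * B₁ + 2 * A') * l ^ (2 * A) * 2 ≤ l ^ (5 * B₁ + 2 * A') * l ^ (2 * A) * l :=
        mul_le_mul_of_nonneg_left hl2 g3.le
      linarith
    calc (N : ℝ) ^ 6 * l ^ (5 * B₁ + 2 * A') * (4 * l ^ (2 * A)) =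
          (N : ℝ) ^ 6 * (l ^ (5 * B₁ + 2 * A') * (4 * l ^ (2 * A))) := by ring
      _ ≤ (N : ℝ) ^ 6 * (2 * l ^ (4 * B₂)) := mul_le_mul_of_nonneg_left e2 (by positivity)
  have b2 : (N : ℝ) ^ 6 / l ^ (2 * A + 2) ≤ (N : ℝ) ^ 6 / (4 * l ^ (2 * A)) := by
    apply div_le_div_of_nonneg_left (by positivity) (by positivity)
    rw [pow_add, mul_comm]
    have : (4 : ℝ) ≤ l ^ 2 := by nlinarith only [hl2]
    exact mul_le_mul_of_nonneg_left this (by positivity)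
  have b3 : ((N : ℝ) ^ 3 * l ^ A') ^ 2 * Real.exp (-((N : ℝ) ^ (2 * ε) / 2)) *
      √(Real.pi / (δ ^ 2 / 2)) ≤ (N : ℝ) ^ 6 / (4 * l ^ (2 * A)) := by
    have e1 : √(Real.pi / (δ ^ 2 / 2)) ≤ 3 * (N : ℝ) ^ E := by
      have f1 : Real.pi / (δ ^ 2 / 2) = (2 * Real.pi) * (1 / δ) ^ 2 := by
        field_simp
      rw [f1, Real.sqrt_mul (by positivity), Real.sqrt_sq (by positivity)]
      have f2 : √(2 * Real.pi) ≤ 3 := by
        rw [Real.sqrt_le_left (by norm_num)]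
        have := Real.pi_lt_d2
        linarith
      have f3 : 1 / δ ≤ (N : ℝ) ^ E := by
        rw [hδe, Real.rpow_neg hN0.le, one_div, inv_inv, ← Real.rpow_natCast]
        exact Real.rpow_le_rpow_of_exponent_le hNR hE
      exact mul_le_mul f2 f3 (by positivity) (by norm_num)
    have e2 : (N : ℝ) ^ (E + 2 * A' + 2 * A) = (N : ℝ) ^ E * ((N : ℝ) ^ A') ^ 2 * (N : ℝ) ^ (2 * A) := by
      rw [← pow_mul, ← pow_add, ← pow_add]
      congr 1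
      ring
    have e3 : l ^ A' ≤ (N : ℝ) ^ A' := pow_le_pow_left₀ hl0.le hlN _
    have e4 : l ^ (2 * A) ≤ (N : ℝ) ^ (2 * A) := pow_le_pow_left₀ hl0.le hlN _
    rw [le_div_iff₀ (by positivity)]
    have hex := Real.exp_pos (-((N : ℝ) ^ (2 * ε) / 2))
    calc ((N : ℝ) ^ 3 * l ^ A') ^ 2 * Real.exp (-((N : ℝ) ^ (2 * ε) / 2)) *
          √(Real.pi / (δ ^ 2 / 2)) * (4 * l ^ (2 * A))
        ≤ ((N : ℝ) ^ 3 * (N : ℝ) ^ A') ^ 2 * Real.exp (-((N : ℝ) ^ (2 * ε) / 2)) *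
          (3 * (N : ℝ) ^ E) * (4 * (N : ℝ) ^ (2 * A)) := by gcongr
      _ = (N : ℝ) ^ 6 * (12 * ((N : ℝ) ^ (E + 2 * A' + 2 * A) *
            Real.exp (-((N : ℝ) ^ (2 * ε) / 2)))) := by
          rw [e2]
          ring
      _ ≤ (N : ℝ) ^ 6 * (12 * (1 / 12)) := by gcongr
      _ = (N : ℝ) ^ 6 := by ring
  have hint2 : ∫ t : ℝ, ‖DPb M a t * DPb K b t‖ ^ 2 * mu2 δ δ' t ^ 2 ≤ ((N : ℝ) ^ 3 / l ^ A) ^ 2 := by
    have e1 : ((N : ℝ) ^ 3 / l ^ A) ^ 2 = 4 * ((N : ℝ) ^ 6 / (4 * l ^ (2 * A))) := by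
      rw [div_pow, ← pow_mul, ← pow_mul, mul_comm A 2]
      field_simp
    have e2 : 0 ≤ (N : ℝ) ^ 6 / (4 * l ^ (2 * A)) := by positivity
    rw [e1]
    linarith
  rw [Real.sqrt_le_left (by positivity)]
  exact hint2

end Pool.Agent.CH
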