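import Pool.Agent.helper17.CH.SpecB
import Pool.Agent.helper20.GD.BV1

/-!
# Project CH (MP_5628fe_nt), part B, row KSM: the sum of the kernels over the moduli
-/

set_option autoImplicit false

namespace Pool.Agent.CH

open Finset ArithmeticFunction
open GD (kp ks)

/-- comparison of two sums through an injective map -/
private theorem KSM_inj {α β : Type} [DecidableEq β] (A : Finset α) (B : Finset β) (e : α → β)
    (he : ∀ x ∈ A, e x ∈ B) (hi : ∀ x ∈ A, ∀ y ∈ A, e x = e y → x = y) (f : α → ℝ) (g : β → ℝ)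
    (hfg : ∀ x ∈ A, f x ≤ g (e x)) (hg : ∀ y ∈ B, 0 ≤ g y) : ∑ x ∈ A, f x ≤ ∑ y ∈ B, g y := by
  calc ∑ x ∈ A, f x ≤ ∑ x ∈ A, g (e x) := Finset.sum_le_sum hfg
    _ = ∑ y ∈ A.image e, g y := by
        rw [Finset.sum_image]
        intro x hx y hy h
        exact hi x hx y hy h
    _ ≤ ∑ y ∈ B, g y := by
        apply Finset.sum_le_sum_of_subset_of_nonneg
        · intro y hy
          obtain ⟨x, hx, rfl⟩ := Finset.mem_image.1 hy
          exact he x hx
        · intro y hy _
          exact hg y hy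

/-- sums over `r ∣ m ≤ n` are bounded by sums over two factors -/
private theorem KSM_conv (n : ℕ) (W : ℕ → ℕ → ℝ) (hW : ∀ r s, 0 ≤ W r s) :
    ∑ m ∈ Icc 1 n, ∑ r ∈ m.divisors, W r (m / r) ≤ ∑ r ∈ Icc 1 n, ∑ s ∈ Icc 1 n, W r s := by
  classical
  have e1 : ∑ m ∈ Icc 1 n, ∑ r ∈ m.divisors, W r (m / r) =
      ∑ x ∈ (Icc 1 n).sigma (fun m => m.divisors), W x.2 (x.1 / x.2) := by
    rw [Finset.sum_sigma]
  have e2 : ∑ r ∈ Icc 1 n, ∑ s ∈ Icc 1 n, W r s = ∑ y ∈ Icc 1 n ×ˢ Icc 1 n, W y.1 y.2 := by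
    rw [Finset.sum_product]
  rw [e1, e2]
  apply KSM_inj _ _ (fun x : (_ : ℕ) × ℕ => (x.2, x.1 / x.2))
  · rintro ⟨m, r⟩ hx
    rw [Finset.mem_sigma] at hx
    obtain ⟨hm, hr⟩ := hx
    simp only at hm hr
    rw [Finset.mem_Icc] at hm
    rw [Nat.mem_divisors] at hr
    have hr0 : 0 < r := Nat.pos_of_dvd_of_pos hr.1 (by omega)
    have hrm : r ≤ m := Nat.le_of_dvd (by omega) hr.1
    rw [Finset.mem_product, Finset.mem_Icc, Finset.mem_Icc]
    refine ⟨⟨hr0, hrm.trans hm.2⟩, ?_, ?_⟩
    · exact Nat.div_pos hrm hr0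
    · exact (Nat.div_le_self m r).trans hm.2
  · rintro ⟨m, r⟩ hx ⟨m', r'⟩ hy h
    rw [Finset.mem_sigma] at hx hy
    obtain ⟨hm, hr⟩ := hx
    obtain ⟨hm', hr'⟩ := hy
    simp only at hm hr hm' hr' h
    rw [Nat.mem_divisors] at hr hr'
    rw [Prod.mk.injEq] at h
    obtain ⟨h1, h2⟩ := h
    subst h1
    have : m = m' := by
      rw [← Nat.div_mul_cancel hr.1, ← Nat.div_mul_cancel hr'.1, h2]
    subst this
    rfl
  · rintro ⟨m, r⟩ _
    exact le_rfl
  · rintro ⟨r, s⟩ _
    exact hW r s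

/-- the totient sum over the common divisors of `r` and `h` -/
private noncomputable def KSM_U (h r : ℕ) : ℝ := ∑ d ∈ r.divisors with d ∣ h, (Nat.totient d : ℝ)

private theorem KSM_U_nonneg (h r : ℕ) : 0 ≤ KSM_U h r := Finset.sum_nonneg fun _ _ => by positivity

private theorem KSM_step1 (m j h r' rm : ℕ) (hco : Nat.Coprime 30 m) (hm : 0 < m) (hr0 : 0 < r')
    (hr' : r' ∣ 30 * m) (hh : ∀ d, d ∣ m → j ≡ rm [MOD d] → d ∣ h) :
    ∑ d ∈ r'.divisors with j ≡ rm [MOD d], (Nat.totient d : ℝ) ≤ 30 * KSM_U h (Nat.gcd r' m) := by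
  classical
  have hB : ∑ y ∈ (Nat.divisors 30) ×ˢ ((Nat.gcd r' m).divisors.filter (fun d => d ∣ h)),
      ((Nat.totient y.1 : ℝ) * (Nat.totient y.2 : ℝ)) = 30 * KSM_U h (Nat.gcd r' m) := by
    rw [Finset.sum_product]
    unfold KSM_U
    simp only
    rw [← Finset.sum_mul_sum]
    congr 1
    have := Nat.sum_totient 30
    exact_mod_cast this
  rw [← hB]
  apply KSM_inj _ _ (fun d => (Nat.gcd d 30, Nat.gcd d m))
  · intro d hd
    rw [Finset.mem_filter, Nat.mem_divisors] at hd
    rw [Finset.mem_product, Finset.mem_filter, Nat.mem_divisors, Nat.mem_divisors]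
    refine ⟨⟨Nat.gcd_dvd_right _ _, by norm_num⟩, ⟨?_, ?_⟩, ?_⟩
    · exact Nat.gcd_dvd_gcd_of_dvd_left m hd.1.1
    · exact (Nat.gcd_pos_of_pos_right _ hm).ne'
    · exact hh _ (Nat.gcd_dvd_right _ _) (hd.2.of_dvd (Nat.gcd_dvd_left _ _))
  · intro d hd d' hd' heq
    rw [Finset.mem_filter, Nat.mem_divisors] at hd hd'
    rw [Prod.mk.injEq] at heq
    have e1 : Nat.gcd d (30 * m) = Nat.gcd d 30 * Nat.gcd d m := Nat.Coprime.gcd_mul d hco
    have e2 : Nat.gcd d' (30 * m) = Nat.gcd d' 30 * Nat.gcd d' m := Nat.Coprime.gcd_mul d' hco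
    rw [Nat.gcd_eq_left (hd.1.1.trans hr')] at e1
    rw [Nat.gcd_eq_left (hd'.1.1.trans hr')] at e2
    rw [e1, e2, heq.1, heq.2]
  · intro d hd
    rw [Finset.mem_filter, Nat.mem_divisors] at hd
    have e1 : Nat.gcd d (30 * m) = Nat.gcd d 30 * Nat.gcd d m := Nat.Coprime.gcd_mul d hco
    rw [Nat.gcd_eq_left (hd.1.1.trans hr')] at e1
    have hc : Nat.Coprime (Nat.gcd d 30) (Nat.gcd d m) :=
      Nat.Coprime.coprime_dvd_left (Nat.gcd_dvd_right _ _)
        (Nat.Coprime.coprime_dvd_right (Nat.gcd_dvd_right _ _) hco)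
    have e2 : Nat.totient d = Nat.totient (Nat.gcd d 30) * Nat.totient (Nat.gcd d m) := by
      conv_lhs => rw [e1]
      exact Nat.totient_mul hc
    simp only
    rw [e2]
    push_cast
    exact le_rfl
  · intro y _
    positivity

private theorem KSM_step2 (m R : ℕ) (hco : Nat.Coprime 30 m) (hm : 0 < m) (G : ℕ → ℝ)
    (hG : ∀ r, 0 ≤ G r) :
    ∑ r' ∈ (30 * m).divisors with R < r' ∧ r' ≤ 2 * R, G (Nat.gcd r' m) ≤
      8 * ∑ r ∈ m.divisors, G r := by
  classical
  have hB : ∑ y ∈ (Nat.divisors 30) ×ˢ m.divisors, G y.2 = 8 * ∑ r ∈ m.divisors, G r := by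
    rw [Finset.sum_product]
    simp only
    rw [Finset.sum_const]
    have : (Nat.divisors 30).card = 8 := by decide
    rw [this, nsmul_eq_mul]
    norm_num
  rw [← hB]
  apply KSM_inj _ _ (fun d => (Nat.gcd d 30, Nat.gcd d m))
  · intro d hd
    rw [Finset.mem_filter, Nat.mem_divisors] at hd
    rw [Finset.mem_product, Nat.mem_divisors, Nat.mem_divisors]
    exact ⟨⟨Nat.gcd_dvd_right _ _, by norm_num⟩, Nat.gcd_dvd_right _ _, hm.ne'⟩
  · intro d hd d' hd' heq
    rw [Finset.mem_filter, Nat.mem_divisors] at hd hd'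
    rw [Prod.mk.injEq] at heq
    have e1 : Nat.gcd d (30 * m) = Nat.gcd d 30 * Nat.gcd d m := Nat.Coprime.gcd_mul d hco
    have e2 : Nat.gcd d' (30 * m) = Nat.gcd d' 30 * Nat.gcd d' m := Nat.Coprime.gcd_mul d' hco
    rw [Nat.gcd_eq_left hd.1.1] at e1
    rw [Nat.gcd_eq_left hd'.1.1] at e2
    rw [e1, e2, heq.1, heq.2]
  · intro d _
    exact le_rfl
  · intro y _
    exact hG _

/-- KSM (hypothesis: KPF) -/
theorem KSM (h1 : KPF_stmt) : KSM_stmt := by
  classical
  refine ⟨240 * Real.exp 30 ^ 2, by positivity, ?_⟩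
  intro Q R j h r hQ hh hr hdiv
  obtain ⟨n, hn⟩ : ∃ n : ℕ, n = ⌊Q⌋₊ := ⟨_, rfl⟩
  have hn1 : 1 ≤ n := by
    rw [hn, Nat.one_le_floor_iff]
    exact hQ
  obtain ⟨S, hSd⟩ : ∃ S : ℝ, S = ∑ s ∈ Icc 1 n, 1 / (Nat.totient s : ℝ) := ⟨_, rfl⟩
  have hS0 : 0 ≤ S := by
    rw [hSd]
    exact Finset.sum_nonneg fun _ _ => by positivity
  have hS : S ≤ Real.exp 30 * (1 + Real.log Q) := by
    rw [hSd]
    refine (GD.BV1_sum_inv n hn1).trans ?_
    have h2 : Real.log n ≤ Real.log Q := by
      apply Real.log_le_log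
      · exact_mod_cast hn1
      · rw [hn]
        exact Nat.floor_le (by linarith)
    have h3 : 0 ≤ Real.exp 30 := (Real.exp_pos _).le
    exact mul_le_mul_of_nonneg_left (by linarith) h3
  -- one modulus
  have hone : ∀ m ∈ Mo Q, |kp R (30 * m) (r m) j| ≤
      240 * ∑ d ∈ m.divisors, KSM_U h d / (Nat.totient d : ℝ) * (1 / (Nat.totient (m / d) : ℝ)) := by
    intro m hm
    unfold Mo at hm
    rw [Finset.mem_filter, Finset.mem_Icc] at hm
    obtain ⟨⟨hm1, _⟩, hmc⟩ := hm
    have hco : Nat.Coprime 30 m := hmc.symm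
    have hk := h1 R (30 * m) (r m) j (by omega) (hr m hm1 hmc)
    have hφ : (0 : ℝ) < (Nat.totient m : ℝ) := by
      exact_mod_cast Nat.totient_pos.2 hm1
    have hφ2 : (Nat.totient m : ℝ) ≤ (Nat.totient (30 * m) : ℝ) := by
      have := Nat.le_of_dvd (Nat.totient_pos.2 (by omega))
        (Nat.totient_dvd_of_dvd (Dvd.intro_left 30 rfl : m ∣ 30 * m))
      exact_mod_cast this
    have e1 : ∑ r' ∈ (30 * m).divisors with R < r' ∧ r' ≤ 2 * R,
        ∑ d ∈ r'.divisors with j ≡ r m [MOD d], (Nat.totient d : ℝ) ≤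
        240 * ∑ d ∈ m.divisors, KSM_U h d := by
      calc _ ≤ ∑ r' ∈ (30 * m).divisors with R < r' ∧ r' ≤ 2 * R, 30 * KSM_U h (Nat.gcd r' m) := by
            apply Finset.sum_le_sum
            intro r' hr'
            rw [Finset.mem_filter, Nat.mem_divisors] at hr'
            exact KSM_step1 m j h r' (r m) hco hm1 (Nat.pos_of_dvd_of_pos hr'.1.1 (by omega)) hr'.1.1
              (hdiv m hm1 hmc)
        _ ≤ 8 * ∑ d ∈ m.divisors, 30 * KSM_U h d :=
            KSM_step2 m R hco hm1 (fun d => 30 * KSM_U h d) (fun d => by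
              have := KSM_U_nonneg h d
              positivity)
        _ = 240 * ∑ d ∈ m.divisors, KSM_U h d := by
            rw [← Finset.mul_sum]
            ring
    have e2 : 0 ≤ ∑ d ∈ m.divisors, KSM_U h d := Finset.sum_nonneg fun d _ => KSM_U_nonneg h d
    calc |kp R (30 * m) (r m) j| ≤ 1 / (Nat.totient (30 * m) : ℝ) *
          ∑ r' ∈ (30 * m).divisors with R < r' ∧ r' ≤ 2 * R,
            ∑ d ∈ r'.divisors with j ≡ r m [MOD d], (Nat.totient d : ℝ) := hk
      _ ≤ 1 / (Nat.totient m : ℝ) * (240 * ∑ d ∈ m.divisors, KSM_U h d) := by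
          apply mul_le_mul (one_div_le_one_div_of_le hφ hφ2) e1
          · exact Finset.sum_nonneg fun _ _ => Finset.sum_nonneg fun _ _ => by positivity
          · positivity
      _ = 240 * ∑ d ∈ m.divisors, KSM_U h d * (1 / (Nat.totient m : ℝ)) := by
          rw [← Finset.sum_mul]
          ring
      _ ≤ 240 * ∑ d ∈ m.divisors,
            KSM_U h d / (Nat.totient d : ℝ) * (1 / (Nat.totient (m / d) : ℝ)) := by
          apply mul_le_mul_of_nonneg_left _ (by norm_num)
          apply Finset.sum_le_sum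
          intro d hd
          rw [Nat.mem_divisors] at hd
          have hd0 : 0 < d := Nat.pos_of_dvd_of_pos hd.1 hm1
          have hq0 : 0 < m / d := Nat.div_pos (Nat.le_of_dvd hm1 hd.1) hd0
          have f1 : (0 : ℝ) < (Nat.totient d : ℝ) := by exact_mod_cast Nat.totient_pos.2 hd0
          have f2 : (0 : ℝ) < (Nat.totient (m / d) : ℝ) := by exact_mod_cast Nat.totient_pos.2 hq0
          have f3 : (Nat.totient d : ℝ) * (Nat.totient (m / d) : ℝ) ≤ (Nat.totient m : ℝ) := by
            have := Nat.totient_super_multiplicative d (m / d)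
            rw [Nat.mul_div_cancel' hd.1] at this
            exact_mod_cast this
          have f4 : 1 / (Nat.totient m : ℝ) ≤ 1 / ((Nat.totient d : ℝ) * (Nat.totient (m / d) : ℝ)) :=
            one_div_le_one_div_of_le (by positivity) f3
          have f5 : KSM_U h d / (Nat.totient d : ℝ) * (1 / (Nat.totient (m / d) : ℝ)) =
              KSM_U h d * (1 / ((Nat.totient d : ℝ) * (Nat.totient (m / d) : ℝ))) := by
            field_simp
          rw [f5]
          exact mul_le_mul_of_nonneg_left f4 (KSM_U_nonneg h d)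
  -- the second sum
  have hsec : ∑ d ∈ Icc 1 n, KSM_U h d / (Nat.totient d : ℝ) ≤ (#h.divisors : ℝ) * S := by
    calc ∑ d ∈ Icc 1 n, KSM_U h d / (Nat.totient d : ℝ) ≤
          ∑ d ∈ Icc 1 n, ∑ e ∈ d.divisors, (if e ∣ h then 1 / (Nat.totient (d / e) : ℝ) else 0) := by
          apply Finset.sum_le_sum
          intro d hd
          rw [Finset.mem_Icc] at hd
          unfold KSM_U
          rw [Finset.sum_filter, Finset.sum_div]
          apply Finset.sum_le_sum
          intro e he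
          rw [Nat.mem_divisors] at he
          have he0 : 0 < e := Nat.pos_of_dvd_of_pos he.1 hd.1
          have hq0 : 0 < d / e := Nat.div_pos (Nat.le_of_dvd hd.1 he.1) he0
          have f0 : (0 : ℝ) < (Nat.totient d : ℝ) := by exact_mod_cast Nat.totient_pos.2 hd.1
          have f2 : (0 : ℝ) < (Nat.totient (d / e) : ℝ) := by exact_mod_cast Nat.totient_pos.2 hq0
          have f3 : (Nat.totient e : ℝ) * (Nat.totient (d / e) : ℝ) ≤ (Nat.totient d : ℝ) := by
            have := Nat.totient_super_multiplicative e (d / e)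
            rw [Nat.mul_div_cancel' he.1] at this
            exact_mod_cast this
          split_ifs with hc
          · rw [div_le_div_iff₀ f0 f2]
            linarith
          · simp
      _ ≤ ∑ e ∈ Icc 1 n, ∑ k ∈ Icc 1 n, (if e ∣ h then 1 / (Nat.totient k : ℝ) else 0) :=
          KSM_conv n (fun e k => if e ∣ h then 1 / (Nat.totient k : ℝ) else 0) (fun e k => by
            split_ifs <;> positivity)
      _ = ∑ e ∈ Icc 1 n, (if e ∣ h then S else 0) := by
          apply Finset.sum_congr rfl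
          intro e _
          split_ifs
          · exact hSd.symm
          · simp
      _ = (#((Icc 1 n).filter (fun e => e ∣ h)) : ℝ) * S := by
          rw [← Finset.sum_filter, Finset.sum_const, nsmul_eq_mul]
      _ ≤ (#h.divisors : ℝ) * S := by
          apply mul_le_mul_of_nonneg_right _ hS0
          have : #((Icc 1 n).filter (fun e => e ∣ h)) ≤ #h.divisors := by
            apply Finset.card_le_card
            intro e he
            rw [Finset.mem_filter] at he
            rw [Nat.mem_divisors]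
            exact ⟨he.2, by omega⟩
          exact_mod_cast this
  have hlog : 0 ≤ Real.log Q := Real.log_nonneg hQ
  calc ∑ m ∈ Mo Q, |kp R (30 * m) (r m) j| ≤ ∑ m ∈ Mo Q,
        240 * ∑ d ∈ m.divisors, KSM_U h d / (Nat.totient d : ℝ) * (1 / (Nat.totient (m / d) : ℝ)) :=
        Finset.sum_le_sum hone
    _ ≤ ∑ m ∈ Icc 1 n,
        240 * ∑ d ∈ m.divisors, KSM_U h d / (Nat.totient d : ℝ) * (1 / (Nat.totient (m / d) : ℝ)) := by
        apply Finset.sum_le_sum_of_subset_of_nonneg
        · intro m hm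
          unfold Mo at hm
          rw [Finset.mem_filter] at hm
          rw [hn]
          exact hm.1
        · intro m _ _
          have : 0 ≤ ∑ d ∈ m.divisors,
              KSM_U h d / (Nat.totient d : ℝ) * (1 / (Nat.totient (m / d) : ℝ)) :=
            Finset.sum_nonneg fun d _ => by
              have := KSM_U_nonneg h d
              positivity
          positivity
    _ = 240 * ∑ m ∈ Icc 1 n, ∑ d ∈ m.divisors,
          KSM_U h d / (Nat.totient d : ℝ) * (1 / (Nat.totient (m / d) : ℝ)) := by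
        rw [Finset.mul_sum]
    _ ≤ 240 * ∑ d ∈ Icc 1 n, ∑ s ∈ Icc 1 n,
          KSM_U h d / (Nat.totient d : ℝ) * (1 / (Nat.totient s : ℝ)) := by
        apply mul_le_mul_of_nonneg_left _ (by norm_num)
        exact KSM_conv n (fun d s => KSM_U h d / (Nat.totient d : ℝ) * (1 / (Nat.totient s : ℝ)))
          (fun d s => by
            have := KSM_U_nonneg h d
            positivity)
    _ = 240 * ((∑ d ∈ Icc 1 n, KSM_U h d / (Nat.totient d : ℝ)) * S) := by
        rw [hSd, Finset.sum_mul_sum]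
    _ ≤ 240 * (((#h.divisors : ℝ) * S) * S) := by gcongr
    _ ≤ 240 * (((#h.divisors : ℝ) * (Real.exp 30 * (1 + Real.log Q))) *
          (Real.exp 30 * (1 + Real.log Q))) := by
        have : 0 ≤ Real.exp 30 * (1 + Real.log Q) := by positivity
        gcongr
    _ = 240 * Real.exp 30 ^ 2 * (1 + Real.log Q) ^ 2 * #h.divisors := by ring

end Pool.Agent.CH
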